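import Pool.Agent.Helper65.HF.StC

/-!
Project HF (MP_b56c98_ag), module GAM: comparison of an irregular start with the full set.
-/

namespace Pool.Agent.Helper66.HF

open Pool.Agent.Helper65.HF

private theorem last_eq (q : List ℕ) (i : ℕ) (hi : 1 ≤ i) (hq : q.length = i) :
    q.getLastD 0 = q.getD (i - 1) 0 := by
  cases q with
  | nil =>
    simp at hq
    omega
  | cons x l =>
    have hlt : i - 1 < (x :: l).length := by omega
    have h1 : (x :: l).getLastD 0 = (x :: l).getLast (List.cons_ne_nil x l) := rfl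
    rw [List.getD_eq_getElem _ _ hlt, h1]
    subst hq
    exact List.getLast_eq_getElem _

private theorem card_split (hSPL : sSPL) (M : ℕ) (ν : ℕ → ℕ) (i s : ℕ) :
    (tl M ν 0 (i + s) 0).card = ∑ q ∈ tl M ν 0 i 0, (tl M ν i s (q.getLastD 0)).card := by
  have h := hSPL M ν 0 i s 0 (fun _ => True)
  rw [num_true] at h
  rw [h]
  apply Finset.sum_congr rfl
  intro q _
  rw [num_true, zero_add]

theorem hGAM : sGAM := by
  intro hBET hSPL M ν i t u a hi ha
  rw [add_assoc, card_split hSPL M ν i (t + u), card_split hSPL M ν i t, Finset.sum_mul, Finset.mul_sum]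
  apply Finset.sum_le_sum
  intro q hq
  obtain ⟨⟨hlen, -, -⟩, -, hreg⟩ := mem_tl.1 hq
  have h1 := hreg (i - 1) (by omega)
  have h2 : 0 + (i - 1) + 1 = i := by omega
  rw [h2, ← last_eq q i hi hlen] at h1
  have h3 := hBET M ν i t u a (q.getLastD 0) (ha.trans h1)
  calc (tl M ν i (t + u) (q.getLastD 0)).card * (tl M ν i t a).card
      ≤ (tl M ν i t (q.getLastD 0)).card * (tl M ν i (t + u) a).card := h3
    _ = (tl M ν i (t + u) a).card * (tl M ν i t (q.getLastD 0)).card := Nat.mul_comm _ _

end Pool.Agent.Helper66.HF
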